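import Mathlib

namespace Pool.Agent.P.MP_6a4cde_an

/-- `J` is an independence set for the tuple of sets `U`. -/
def IsIndependenceSet {G X : Type*} [Group G] [MulAction G X] {n : ℕ}
    (U : Fin n → Set X) (J : Set G) : Prop :=
  ∀ I : Finset G, (I : Set G) ⊆ J → I.Nonempty → ∀ σ : I → Fin n,
    (⋂ g : I, (fun x : X => (g : G)⁻¹ • x) '' U (σ g)).Nonempty

/-- `x` is an IT-tuple. -/
def IsITTuple (G : Type*) {X : Type*} [Group G] [MulAction G X] [TopologicalSpace X] {n : ℕ}
    (x : Fin n → X) : Prop :=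
  ∀ U : Fin n → Set X, (∀ i, U i ∈ nhds (x i)) →
    ∃ J : Set G, J.Infinite ∧ IsIndependenceSet U J

/-- `n`-tame: no IT-tuple of length `n` has pairwise distinct entries. -/
def IsNTame (G X : Type*) [Group G] [MulAction G X] [TopologicalSpace X] (n : ℕ) : Prop :=
  ∀ x : Fin n → X, IsITTuple G x → ∃ i j, i ≠ j ∧ x i = x j

end Pool.Agent.P.MP_6a4cde_an
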