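import Pool.Agent.P.MP_6a4cde_an.Defs

namespace Pool.Agent.P.MP_6a4cde_an

/-- The finitary alternating group: the union over `n` of the groups of even permutations of
`{0, …, n - 1}`, extended by the identity to permutations of `ℕ`. -/
noncomputable def FinAlt : Subgroup (Equiv.Perm ℕ) :=
  ⨆ n : ℕ, (alternatingGroup (Fin n)).map (Equiv.Perm.viaEmbeddingHom Fin.valEmbedding)

end Pool.Agent.P.MP_6a4cde_an
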