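import Mathlib

/-! Quasirandomness of finite simple groups with many commuting involutions. -/

namespace Pool.Agent.P.MP_6a4cde_an

open Module
open scoped RealInnerProductSpace

section

variable {Γ : Type} [Group Γ] {V : Type} [NormedAddCommGroup V] [InnerProductSpace ℝ V]
  [FiniteDimensional ℝ V] (ρ : Γ →* (V ≃ₗᵢ[ℝ] V))

omit [FiniteDimensional ℝ V] in
theorem rho_mul (g h : Γ) (v : V) : ρ (g * h) v = ρ g (ρ h v) := by
  rw [map_mul]; rfl

/-- A nontrivial invariant subspace has large dimension. -/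
theorem card_le_of_invariant [IsSimpleGroup Γ] (R : Finset Γ)
    (hR : ∀ a ∈ R, ∀ b ∈ R, a⁻¹ * b * (a⁻¹ * b) = 1) (E : Submodule ℝ V)
    (hE : ∀ g, ∀ v ∈ E, ρ g v ∈ E) (hne : ∃ g, ∃ v ∈ E, ρ g v ≠ v) :
    R.card ≤ 5 ^ (finrank ℝ E * finrank ℝ E) := by
  classical
  let K : Subgroup Γ :=
    { carrier := {g | ∀ v ∈ E, ρ g v = v}
      mul_mem' := fun {a b} ha hb v hv => by rw [rho_mul, hb v hv, ha v hv]
      one_mem' := fun v _ => by simp
      inv_mem' := fun {a} ha v hv => by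
        conv_lhs => rw [← ha v hv, ← rho_mul, inv_mul_cancel]
        simp }
  have hn : K.Normal := ⟨fun a ha g v hv => by
    rw [rho_mul, rho_mul, ha _ (hE _ _ hv), ← rho_mul, mul_inv_cancel]; simp⟩
  have hK : K = ⊥ := (hn.eq_bot_or_eq_top).resolve_right fun h => by
    obtain ⟨g, v, hv, h1⟩ := hne
    exact h1 ((h ▸ Subgroup.mem_top g : g ∈ K) v hv)
  let c : Γ → E →L[ℝ] E := fun g =>
    LinearMap.toContinuousLinearMap ((ρ g).toLinearEquiv.toLinearMap.restrict (hE g))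
  have hc : ∀ g (v : E), (c g v : V) = ρ g v := fun _ _ => rfl
  have hsep : ∀ a ∈ R, ∀ b ∈ R, a ≠ b → 1 ≤ ‖c a - c b‖ := by
    intro a ha b hb hab
    have h1 : a⁻¹ * b ∉ K := by
      rw [hK, Subgroup.mem_bot, inv_mul_eq_one]; exact hab
    obtain ⟨v, hv, h2⟩ : ∃ v ∈ E, ρ (a⁻¹ * b) v ≠ v := by
      by_contra h
      push Not at h
      exact h1 h
    let w : E := ⟨v - ρ (a⁻¹ * b) v, sub_mem hv (hE _ _ hv)⟩
    have hw : (w : V) ≠ 0 := sub_ne_zero.2 h2.symm
    have h3 : ρ (a⁻¹ * b) w = -w := by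
      show ρ (a⁻¹ * b) (v - ρ (a⁻¹ * b) v) = -(v - ρ (a⁻¹ * b) v)
      rw [map_sub, ← rho_mul, hR a ha b hb]
      simp
    have h4 : ρ b w = -ρ a w := by
      rw [← map_neg, ← h3, ← rho_mul, mul_inv_cancel_left]
    have h5 := (c a - c b).le_opNorm w
    have h6 : ‖(c a - c b) w‖ = 2 * ‖w‖ := by
      show ‖(ρ a w - ρ b w : V)‖ = 2 * ‖(w : V)‖
      rw [h4, sub_neg_eq_add, ← two_smul ℝ, norm_smul, LinearIsometryEquiv.norm_map]
      simp
    have h7 : 0 < ‖w‖ := norm_pos_iff.2 fun h => hw (congrArg Subtype.val h)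
    rw [h6] at h5
    have := le_of_mul_le_mul_right h5 h7
    linarith
  have hinj : Set.InjOn c R := fun a ha b hb h => by
    by_contra hab
    have := hsep a ha b hb hab
    rw [h, sub_self, ContinuousLinearMap.opNorm_zero] at this
    linarith
  have := Besicovitch.card_le_of_separated (R.image c) (fun x hx => by
    obtain ⟨a, -, rfl⟩ := Finset.mem_image.1 hx
    refine ContinuousLinearMap.opNorm_le_bound _ zero_le_two fun v => ?_
    show ‖ρ a v‖ ≤ 2 * ‖(v : V)‖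
    rw [LinearIsometryEquiv.norm_map]
    linarith [norm_nonneg (v : V)]) (fun x hx y hy hxy => by
    obtain ⟨a, ha, rfl⟩ := Finset.mem_image.1 hx
    obtain ⟨b, hb, rfl⟩ := Finset.mem_image.1 hy
    exact hsep a ha b hb fun h => hxy (h ▸ rfl))
  rwa [Finset.card_image_of_injOn hinj, ← (LinearMap.toContinuousLinearMap :
    (E →ₗ[ℝ] E) ≃ₗ[ℝ] (E →L[ℝ] E)).finrank_eq, finrank_linearMap] at this

/-- The spectral estimate for matrix coefficients. -/
theorem sum_sq_le [Fintype Γ] (D : ℕ) (hD : ∀ E : Submodule ℝ V, (∀ g, ∀ v ∈ E, ρ g v ∈ E) →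
    (∃ g, ∃ v ∈ E, ρ g v ≠ v) → D ≤ finrank ℝ E) (φ : V)
    (hφ : ∀ v, (∀ g, ρ g v = v) → ⟪φ, v⟫ = 0) (ψ : V) :
    D * ∑ g, ⟪ρ g φ, ψ⟫ ^ 2 ≤ Fintype.card Γ * ‖φ‖ ^ 2 * ‖ψ‖ ^ 2 := by
  let A : V →ₗ[ℝ] V := ∑ g, (innerₛₗ ℝ (ρ g φ)).smulRight (ρ g φ)
  have hA : ∀ v, A v = ∑ g, ⟪ρ g φ, v⟫ • ρ g φ := fun v => by simp [A]
  have hAi : ∀ v w, ⟪A v, w⟫ = ∑ g, ⟪ρ g φ, v⟫ * ⟪ρ g φ, w⟫ := fun v w => by
    rw [hA, sum_inner]
    simp [inner_smul_left]
  have hs : A.IsSymmetric := fun v w => by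
    rw [hAi, real_inner_comm, hAi]
    exact Finset.sum_congr rfl fun g _ => mul_comm _ _
  have hcomm : ∀ h v, A (ρ h v) = ρ h (A v) := fun h v => by
    rw [hA, hA, map_sum, ← Equiv.sum_comp (Equiv.mulLeft h)]
    refine Finset.sum_congr rfl fun g _ => ?_
    simp
  have hev : ∀ μ : ℝ, Module.End.HasEigenvalue A μ → D * μ ≤ Fintype.card Γ * ‖φ‖ ^ 2 := by
    intro μ hμ
    rcases le_or_gt μ 0 with h0 | h0
    · exact (mul_nonpos_of_nonneg_of_nonpos (Nat.cast_nonneg _) h0).trans (by positivity)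
    have h1 := hD (Module.End.eigenspace A μ) (fun g v hv => by
      rw [Module.End.mem_eigenspace_iff] at hv ⊢
      rw [hcomm, hv, map_smul]) (by
      by_contra hc
      push Not at hc
      obtain ⟨v, hv, hv0⟩ := hμ.exists_hasEigenvector
      have h2 : A v = 0 := by
        rw [hA]
        refine Finset.sum_eq_zero fun g _ => ?_
        rw [← hc g v hv, LinearIsometryEquiv.inner_map_map, hφ v fun g => hc g v hv, zero_smul]
      rw [Module.End.mem_eigenspace_iff.1 hv, smul_eq_zero] at h2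
      exact h2.elim h0.ne' hv0)
    set E := Module.End.eigenspace A μ
    let b := stdOrthonormalBasis ℝ E
    have hb : Orthonormal ℝ fun i => (b i : V) := b.orthonormal.comp_linearIsometry E.subtypeₗᵢ
    have h2 : (finrank ℝ E : ℝ) * μ = ∑ i, ⟪A (b i), b i⟫ := by
      rw [Finset.sum_congr rfl (g := fun _ => μ) fun i _ => by
        rw [Module.End.mem_eigenspace_iff.1 (b i).2, real_inner_smul_left,
          real_inner_self_eq_norm_sq, hb.1 i]
        simp]
      simp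
    calc (D : ℝ) * μ ≤ finrank ℝ E * μ := by gcongr
      _ = ∑ g, ∑ i, ‖⟪(b i : V), ρ g φ⟫‖ ^ 2 := by
        rw [h2, Finset.sum_comm]
        refine Finset.sum_congr rfl fun i _ => ?_
        rw [hAi]
        exact Finset.sum_congr rfl fun g _ => by
          rw [Real.norm_eq_abs, sq_abs, real_inner_comm, sq]
      _ ≤ ∑ _g : Γ, ‖φ‖ ^ 2 := Finset.sum_le_sum fun g _ => by
        simpa using hb.sum_inner_products_le (ρ g φ) (s := Finset.univ)
      _ = _ := by simp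
  let e := hs.eigenvectorBasis rfl
  calc D * ∑ g, ⟪ρ g φ, ψ⟫ ^ 2 = D * ⟪A ψ, ψ⟫ := by rw [hAi]; simp only [sq]
    _ = ∑ i, D * hs.eigenvalues rfl i * ⟪e i, ψ⟫ ^ 2 := by
      rw [← e.sum_inner_mul_inner, Finset.mul_sum]
      refine Finset.sum_congr rfl fun i _ => ?_
      rw [hs, hs.apply_eigenvectorBasis, inner_smul_right, real_inner_comm]
      simp only [RCLike.ofReal_real_eq_id, id]
      ring
    _ ≤ ∑ i, Fintype.card Γ * ‖φ‖ ^ 2 * ⟪e i, ψ⟫ ^ 2 := Finset.sum_le_sum fun i _ =>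
      mul_le_mul_of_nonneg_right (hev _ (hs.hasEigenvalue_eigenvalues rfl i)) (sq_nonneg _)
    _ = _ := by rw [← Finset.mul_sum, e.sum_sq_inner_right]

end

variable {Γ : Type} [Group Γ] [Fintype Γ]

/-- The left regular representation. -/
noncomputable def reg (Γ : Type) [Group Γ] [Fintype Γ] :
    Γ →* (EuclideanSpace ℝ Γ ≃ₗᵢ[ℝ] EuclideanSpace ℝ Γ) where
  toFun g := LinearIsometryEquiv.piLpCongrLeft 2 ℝ ℝ (Equiv.mulLeft g)
  map_one' := by
    ext v x
    show v (1⁻¹ * x) = v x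
    rw [inv_one, one_mul]
  map_mul' g h := by
    ext v x
    show v ((g * h)⁻¹ * x) = v (h⁻¹ * (g⁻¹ * x))
    rw [mul_inv_rev, mul_assoc]

theorem reg_apply (g : Γ) (v : EuclideanSpace ℝ Γ) (x : Γ) : reg Γ g v x = v (g⁻¹ * x) := rfl

/-- The product mixing estimate. -/
theorem mixing [IsSimpleGroup Γ] [DecidableEq Γ] (R : Finset Γ)
    (hR : ∀ a ∈ R, ∀ b ∈ R, a⁻¹ * b * (a⁻¹ * b) = 1) (D : ℕ) (hD : 5 ^ (D * D) ≤ R.card)
    (S T B : Finset Γ) (hB : ∀ g ∈ B, ∀ t ∈ T, g * t ∉ S) :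
    D * B.card * S.card * T.card ≤ Fintype.card Γ ^ 3 := by
  rcases S.eq_empty_or_nonempty with rfl | hS
  · simp
  rcases T.eq_empty_or_nonempty with rfl | hT
  · simp
  have hN : (0 : ℝ) < Fintype.card Γ := by exact_mod_cast Fintype.card_pos
  have hs : (0 : ℝ) < S.card := by exact_mod_cast hS.card_pos
  have ht : (0 : ℝ) < T.card := by exact_mod_cast hT.card_pos
  set β : ℝ := T.card / Fintype.card Γ with hβ
  let φ : EuclideanSpace ℝ Γ := WithLp.toLp 2 fun x => (if x ∈ T then 1 else 0) - β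
  let ψ : EuclideanSpace ℝ Γ := WithLp.toLp 2 fun x => if x ∈ S then 1 else 0
  have h := sum_sq_le (reg Γ) D (fun E h1 h2 => by
    have := hD.trans (card_le_of_invariant (reg Γ) R hR E h1 h2)
    exact Nat.mul_self_le_mul_self_iff.1 ((Nat.pow_le_pow_iff_right (by norm_num)).1 this)) φ
    (fun v hv => by
      have h1 : ∀ x, v x = v 1 := fun x => by
        have := reg_apply x v x
        rwa [hv, inv_mul_cancel] at this
      simp only [PiLp.inner_apply, φ, h1, RCLike.inner_apply, conj_trivial, ← Finset.mul_sum,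
        Finset.sum_sub_distrib]
      simp [hβ, mul_div_cancel₀ _ hN.ne']) ψ
  have h1 : ‖ψ‖ ^ 2 = S.card := by
    rw [EuclideanSpace.real_norm_sq_eq]
    simp [ψ]
  have h2 : ‖φ‖ ^ 2 ≤ T.card := by
    rw [EuclideanSpace.real_norm_sq_eq]
    have : ∀ x, φ x ^ 2 = (if x ∈ T then 1 - 2 * β else 0) + β ^ 2 := fun x => by
      simp only [φ]
      split_ifs <;> ring
    simp only [this, Finset.sum_add_distrib, Finset.sum_ite_mem, Finset.univ_inter,
      Finset.sum_const, nsmul_eq_mul, Finset.card_univ]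
    have h3 : Fintype.card Γ * β = T.card := by rw [hβ, mul_div_cancel₀ _ hN.ne']
    have h4 : 0 ≤ β := by positivity
    nlinarith
  have h3 : ∀ g ∈ B, ⟪reg Γ g φ, ψ⟫ ^ 2 = (β * S.card) ^ 2 := fun g hg => by
    have : ⟪reg Γ g φ, ψ⟫ = -(β * S.card) := by
      simp only [PiLp.inner_apply, reg_apply, φ, ψ, RCLike.inner_apply, conj_trivial, ite_mul,
        one_mul, zero_mul, Finset.sum_ite_mem, Finset.univ_inter]
      rw [Finset.sum_congr rfl (g := fun _ => -β) fun x hx => by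
        rw [if_neg fun h => hB g hg _ h (by rwa [mul_inv_cancel_left]), zero_sub]]
      simp [mul_comm]
    rw [this, neg_sq]
  have h4 : B.card * (β * S.card) ^ 2 ≤ ∑ g, ⟪reg Γ g φ, ψ⟫ ^ 2 := by
    rw [← nsmul_eq_mul, ← Finset.sum_const, ← Finset.sum_congr rfl h3]
    exact Finset.sum_le_sum_of_subset_of_nonneg (Finset.subset_univ _) fun _ _ _ => sq_nonneg _
  have h5 : (D : ℝ) * (B.card * (β * S.card) ^ 2) ≤ Fintype.card Γ * T.card * S.card :=
    calc _ ≤ _ := mul_le_mul_of_nonneg_left h4 (Nat.cast_nonneg _)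
      _ ≤ _ := h
      _ ≤ _ := by rw [h1]; gcongr
  have h6 : (D : ℝ) * B.card * S.card * T.card ≤ (Fintype.card Γ : ℝ) ^ 3 := by
    rw [hβ] at h5
    field_simp at h5
    nlinarith
  exact_mod_cast h6

end Pool.Agent.P.MP_6a4cde_an
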