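import Pool.Agent.P.MP_6a4cde_an.MinDefs
import Pool.Agent.P.MP_6a4cde_an.Quasi

/-! Minimal actions of the finitary alternating group have independence tuples everywhere. -/

namespace Pool.Agent.P.MP_6a4cde_an

open Equiv Equiv.Perm
open scoped Pointwise

/-- Finite subsets lie in finite simple subgroups with many commuting involutions. -/
def Rich (G : Type) [Group G] : Prop :=
  ∀ (F : Finset G) (r : ℕ), ∃ (Γ : Type) (_ : Group Γ) (_ : Fintype Γ) (_ : IsSimpleGroup Γ)
    (ι : Γ →* G), Function.Injective ι ∧ (∀ f ∈ F, ∃ γ, ι γ = f) ∧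
      ∃ R : Finset Γ, r ≤ R.card ∧ ∀ a ∈ R, ∀ b ∈ R, a⁻¹ * b * (a⁻¹ * b) = 1

theorem alt_mono : Monotone fun n : ℕ =>
    (alternatingGroup (Fin n)).map (viaEmbeddingHom Fin.valEmbedding) := by
  classical
  rintro n m h _ ⟨σ, hσ, rfl⟩
  refine ⟨σ.viaEmbedding (Fin.castLEEmb h), ?_, ?_⟩
  · rw [SetLike.mem_coe, mem_alternatingGroup] at hσ ⊢
    rw [← hσ, viaEmbedding]
    convert sign_extendDomain σ _
  · ext x
    rw [viaEmbeddingHom_apply, viaEmbeddingHom_apply]
    by_cases h1 : x < n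
    · have e1 := viaEmbedding_apply σ Fin.valEmbedding ⟨x, h1⟩
      have e2 := viaEmbedding_apply σ (Fin.castLEEmb h) ⟨x, h1⟩
      have e3 := viaEmbedding_apply (σ.viaEmbedding (Fin.castLEEmb h)) Fin.valEmbedding
        (Fin.castLEEmb h ⟨x, h1⟩)
      rw [e2] at e3
      exact e3.trans e1.symm
    · rw [viaEmbedding_apply_of_notMem σ _ x (by rintro ⟨y, rfl⟩; exact h1 y.2)]
      by_cases h2 : x < m
      · have e3 := viaEmbedding_apply (σ.viaEmbedding (Fin.castLEEmb h)) Fin.valEmbedding ⟨x, h2⟩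
        rw [viaEmbedding_apply_of_notMem σ _ _ (by
          rintro ⟨y, hy⟩
          have : (y : ℕ) = x := congrArg Fin.val hy
          exact h1 (this ▸ y.2))] at e3
        exact e3
      · exact viaEmbedding_apply_of_notMem _ _ x (by rintro ⟨y, rfl⟩; exact h2 y.2)

theorem mem_finAlt {σ : Perm ℕ} : σ ∈ FinAlt ↔
    ∃ n, σ ∈ (alternatingGroup (Fin n)).map (viaEmbeddingHom Fin.valEmbedding) :=
  Subgroup.mem_iSup_of_directed alt_mono.directed_le

/-- Blocks of four points. -/
def blocks (m : ℕ) : (Fin m → Perm (Fin 4)) →* Perm (Fin (m * 4)) where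
  toFun σ := finProdFinEquiv.permCongr (prodCongrRight σ)
  map_one' := by
    ext x
    obtain ⟨⟨a, b⟩, rfl⟩ := finProdFinEquiv.surjective x
    simp
  map_mul' σ τ := by
    ext x
    obtain ⟨⟨a, b⟩, rfl⟩ := finProdFinEquiv.surjective x
    simp

theorem blocks_inj (m : ℕ) : Function.Injective (blocks m) := fun σ τ h => by
  ext a b
  have := DFunLike.congr_fun h (finProdFinEquiv (a, b))
  simp only [blocks, MonoidHom.coe_mk, OneHom.coe_mk, permCongr_apply, symm_apply_apply,
    prodCongrRight_apply, EmbeddingLike.apply_eq_iff_eq, Prod.mk.injEq, true_and] at this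
  rw [this]

/-- A double transposition. -/
def kk : Perm (Fin 4) := swap 0 1 * swap 2 3

theorem kk_sign : sign kk = 1 := by decide

theorem kk_ne : kk ≠ 1 := by decide

theorem kk_mul : kk * kk = 1 := by decide

theorem exists_invol (m : ℕ) : ∃ R : Finset (alternatingGroup (Fin (m * 4))), m ≤ R.card ∧
    ∀ a ∈ R, ∀ b ∈ R, a⁻¹ * b * (a⁻¹ * b) = 1 := by
  classical
  have hs : ∀ i, blocks m (Pi.mulSingle i kk) ∈ alternatingGroup (Fin (m * 4)) := fun i => by
    rw [mem_alternatingGroup]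
    show sign (finProdFinEquiv.permCongr (prodCongrRight _)) = 1
    rw [sign_permCongr, sign_prodCongrRight]
    refine Finset.prod_eq_one fun j _ => ?_
    rw [Pi.mulSingle_apply]
    split_ifs
    · exact kk_sign
    · exact sign_one
  have ht : Function.Injective fun i => (⟨_, hs i⟩ : alternatingGroup (Fin (m * 4))) :=
    fun i j h => by
      by_contra hij
      have := congrFun (blocks_inj m (congrArg Subtype.val h)) i
      rw [Pi.mulSingle_eq_same, Pi.mulSingle_eq_of_ne hij] at this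
      exact kk_ne this
  refine ⟨Finset.univ.image fun i => ⟨_, hs i⟩, ?_, fun a ha b hb => ?_⟩
  · rw [Finset.card_image_of_injective _ ht, Finset.card_univ, Fintype.card_fin]
  · obtain ⟨i, -, rfl⟩ := Finset.mem_image.1 ha
    obtain ⟨j, -, rfl⟩ := Finset.mem_image.1 hb
    refine Subtype.ext ?_
    simp only [Subgroup.coe_mul, Subgroup.coe_inv, Subgroup.coe_one]
    rw [← map_inv, ← map_mul, ← map_mul, ← map_one (blocks m)]
    refine congrArg _ (funext fun l => ?_)
    simp only [Pi.mul_apply, Pi.inv_apply, Pi.mulSingle_apply, Pi.one_apply]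
    split_ifs
    · simp
    · rw [mul_one, ← mul_inv_rev, kk_mul, inv_one]
    · rw [inv_one, one_mul, kk_mul]
    · simp

/-- The inclusion of a finite alternating group. -/
noncomputable def incl (n : ℕ) : alternatingGroup (Fin n) →* FinAlt :=
  ((viaEmbeddingHom Fin.valEmbedding).comp (alternatingGroup (Fin n)).subtype).codRestrict FinAlt
    fun σ => mem_finAlt.2 ⟨n, Subgroup.mem_map_of_mem _ σ.2⟩

theorem incl_inj (n : ℕ) : Function.Injective (incl n) := fun _ _ h =>
  Subtype.ext (viaEmbeddingHom_injective _ (congrArg Subtype.val h))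

theorem exists_incl (F : Finset FinAlt) : ∃ N, ∀ n, N ≤ n → ∀ f ∈ F, ∃ γ, incl n γ = f := by
  choose n hn using fun f : FinAlt => mem_finAlt.1 f.2
  refine ⟨F.sup n, fun m h1 f hf => ?_⟩
  obtain ⟨σ, h6, h7⟩ := Subgroup.mem_map.1
    (alt_mono ((Finset.le_sup (f := n) hf).trans h1) (hn f))
  exact ⟨⟨σ, h6⟩, Subtype.ext h7⟩

theorem rich_finAlt : Rich FinAlt := by
  intro F r
  obtain ⟨N, hN⟩ := exists_incl F
  obtain ⟨m, h1, h2, h3⟩ : ∃ m, N ≤ m * 4 ∧ r ≤ m ∧ 5 ≤ m * 4 :=
    ⟨N + r + 2, by omega, by omega, by omega⟩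
  obtain ⟨R, h4, h5⟩ := exists_invol m
  have hs : IsSimpleGroup (alternatingGroup (Fin (m * 4))) :=
    alternatingGroup.isSimpleGroup (by rwa [Nat.card_eq_fintype_card, Fintype.card_fin])
  exact ⟨alternatingGroup (Fin (m * 4)), inferInstance, Fintype.ofFinite _, hs, incl _,
    incl_inj _, hN _ h1, R, h2.trans h4, h5⟩

theorem countable_finAlt : Countable FinAlt := by
  have : (FinAlt : Set (Perm ℕ)) ⊆ ⋃ n, Set.range (viaEmbeddingHom (Fin.valEmbedding (n := n))) :=
    fun σ h => by
      obtain ⟨n, τ, -, h⟩ := mem_finAlt.1 h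
      exact Set.mem_iUnion.2 ⟨n, τ, h⟩
  exact ((Set.countable_iUnion fun n => Set.countable_range _).mono this).to_subtype

variable {G : Type} [Group G]

theorem Rich.infinite (hG : Rich G) : Infinite G := by
  classical
  refine not_finite_iff_infinite.1 fun _ => ?_
  have := Fintype.ofFinite G
  obtain ⟨Γ, _, _, _, ι, h1, -, R, h2, -⟩ := hG ∅ (Fintype.card G + 1)
  have := R.card_le_univ.trans (Fintype.card_le_of_injective ι h1)
  omega

variable {X : Type*} [TopologicalSpace X] [CompactSpace X] [MulAction G X]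
  [ContinuousConstSMul G X] [MulAction.IsMinimal G X]

/-- Weak mixing of all orders. -/
theorem Rich.multi (hG : Rich G) {κ : Type} [Fintype κ] (V U : κ → Set X) (hV : ∀ i, IsOpen (V i))
    (hU : ∀ i, IsOpen (U i)) (hV' : ∀ i, (V i).Nonempty) (hU' : ∀ i, (U i).Nonempty)
    (F₀ : Finset G) : ∃ g ∉ F₀, ∀ i, ∃ x ∈ V i, g • x ∈ U i := by
  classical
  choose FV hFV using fun i => (isCompact_univ (X := X)).exists_finite_cover_smul G (hV i) (hV' i)
  choose FU hFU using fun i => (isCompact_univ (X := X)).exists_finite_cover_smul G (hU i) (hU' i)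
  let F : Finset G := Finset.univ.biUnion FV ∪ Finset.univ.biUnion FU
  let D := 2 * Fintype.card κ * F.card * F.card + 1
  obtain ⟨Γ, _, _, _, ι, h1, h2, R, h3, h4⟩ := hG F (5 ^ (D * D) + 2 * F₀.card + 1)
  choose! s hs using h2
  have hN : 2 * F₀.card < Fintype.card Γ := by
    have := R.card_le_univ
    have := Nat.zero_le (5 ^ (D * D))
    omega
  have hsyn : ∀ (x : X) (W : Set X) (I : Finset G), I ⊆ F → Set.univ ⊆ ⋃ g ∈ I, g • W →
      Fintype.card Γ ≤ F.card * (Finset.univ.filter fun γ => ι γ • x ∈ W).card := by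
    intro x W I hI hW
    refine le_trans ?_ (Finset.card_mul_le.trans (Nat.mul_le_mul_right _
      (Finset.card_image_le (s := F) (f := s))))
    refine Finset.card_le_card fun γ _ => ?_
    obtain ⟨g, hg, hw⟩ := Set.mem_iUnion₂.1 (hW (Set.mem_univ (ι γ • x)))
    refine Finset.mem_mul.2 ⟨s g, Finset.mem_image_of_mem _ (hI hg), (s g)⁻¹ * γ, ?_, by simp⟩
    rw [Finset.mem_filter, map_mul, map_inv, hs g (hI hg), mul_smul]
    exact ⟨Finset.mem_univ _, Set.mem_smul_set_iff_inv_smul_mem.1 hw⟩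
  let B : κ → Finset Γ := fun i => Finset.univ.filter fun γ => ∀ x ∈ V i, ι γ • x ∉ U i
  have hB : ∀ i, D * (B i).card ≤ F.card * F.card * Fintype.card Γ := fun i => by
    obtain ⟨x, -⟩ := hV' i
    have e1 := hsyn x (V i) (FV i) (fun g hg => Finset.mem_union_left _
      (Finset.mem_biUnion.2 ⟨i, Finset.mem_univ _, hg⟩)) (hFV i)
    have e2 := hsyn x (U i) (FU i) (fun g hg => Finset.mem_union_right _
      (Finset.mem_biUnion.2 ⟨i, Finset.mem_univ _, hg⟩)) (hFU i)
    have e3 := mixing R h4 D (by omega) (Finset.univ.filter fun γ => ι γ • x ∈ U i)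
      (Finset.univ.filter fun γ => ι γ • x ∈ V i) (B i) fun g hg t ht h => by
        rw [Finset.mem_filter] at hg ht h
        exact hg.2 _ ht.2 (by rw [← mul_smul, ← map_mul]; exact h.2)
    refine Nat.le_of_mul_le_mul_right (c := Fintype.card Γ * Fintype.card Γ) ?_ (by positivity)
    calc _ ≤ D * (B i).card * (F.card * _ * (F.card * _)) :=
          Nat.mul_le_mul_left _ (Nat.mul_le_mul e2 e1)
      _ = F.card * F.card * _ := by rw [← mul_assoc, ← mul_assoc]; ac_rfl
      _ ≤ F.card * F.card * Fintype.card Γ ^ 3 := Nat.mul_le_mul_left _ e3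
      _ = _ := by ring
  have hsum : 2 * (Finset.univ.biUnion B).card ≤ Fintype.card Γ := by
    have e1 : D * (Finset.univ.biUnion B).card ≤
        Fintype.card κ * (F.card * F.card * Fintype.card Γ) :=
      calc _ ≤ D * ∑ i, (B i).card := Nat.mul_le_mul_left _ Finset.card_biUnion_le
        _ = ∑ i, D * (B i).card := Finset.mul_sum _ _ _
        _ ≤ ∑ _i : κ, F.card * F.card * Fintype.card Γ := Finset.sum_le_sum fun i _ => hB i
        _ = _ := by simp
    refine Nat.le_of_mul_le_mul_left (c := D) ?_ (Nat.succ_pos _)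
    calc _ = 2 * (D * (Finset.univ.biUnion B).card) := by ring
      _ ≤ 2 * (Fintype.card κ * (F.card * F.card * Fintype.card Γ)) := Nat.mul_le_mul_left _ e1
      _ = 2 * Fintype.card κ * F.card * F.card * Fintype.card Γ := by ring
      _ ≤ _ := Nat.mul_le_mul_right _ (Nat.le_succ _)
  have h5 : (Finset.univ.filter fun γ => ι γ ∈ F₀).card ≤ F₀.card :=
    Finset.card_le_card_of_injOn ι (fun γ h => (Finset.mem_filter.1 h).2) h1.injOn
  obtain ⟨γ, -, hγ⟩ := Finset.exists_mem_notMem_of_card_lt_card (t := Finset.univ)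
    (s := Finset.univ.biUnion B ∪ Finset.univ.filter fun γ => ι γ ∈ F₀) (by
      have := Finset.card_union_le (Finset.univ.biUnion B) (Finset.univ.filter fun γ => ι γ ∈ F₀)
      rw [Finset.card_univ]
      omega)
  refine ⟨ι γ, fun h => hγ (Finset.mem_union_right _ (Finset.mem_filter.2 ⟨Finset.mem_univ _, h⟩)),
    fun i => ?_⟩
  by_contra hc
  push Not at hc
  exact hγ (Finset.mem_union_left _ (Finset.mem_biUnion.2 ⟨i, Finset.mem_univ _,
    Finset.mem_filter.2 ⟨Finset.mem_univ _, hc⟩⟩))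

/-- Every tuple is an IT-tuple. -/
theorem Rich.isITTuple (hG : Rich G) {n : ℕ} (x : Fin n → X) : IsITTuple G x := by
  classical
  intro U hU
  have := hG.infinite
  rcases Nat.eq_zero_or_pos n with rfl | hn
  · exact ⟨Set.univ, Set.infinite_univ, fun I _ ⟨g, hg⟩ σ => (σ ⟨g, hg⟩).elim0⟩
  let P : Finset G → Prop := fun I => ∀ σ : I → Fin n, ∃ y : X, ∀ g : I,
    (g : G) • y ∈ interior (U (σ g))
  have step : ∀ I : {I // P I}, ∃ J : {I // P I}, I.1 ⊂ J.1 := by
    rintro ⟨I, hI⟩
    obtain ⟨g, hg, h⟩ := hG.multi (κ := (I → Fin n) × Fin n)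
      (fun p => ⋂ h : I, (fun y : X => (h : G) • y) ⁻¹' interior (U (p.1 h)))
      (fun p => interior (U p.2))
      (fun p => isOpen_iInter_of_finite fun h => isOpen_interior.preimage (continuous_const_smul _))
      (fun p => isOpen_interior) (fun p => (hI p.1).imp fun y hy => Set.mem_iInter.2 hy)
      (fun p => ⟨x p.2, mem_interior_iff_mem_nhds.2 (hU _)⟩) I
    refine ⟨⟨insert g I, fun σ => ?_⟩, Finset.ssubset_insert hg⟩
    obtain ⟨y, h1, h2⟩ := h (fun h => σ ⟨h, Finset.mem_insert_of_mem h.2⟩,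
      σ ⟨g, Finset.mem_insert_self _ _⟩)
    refine ⟨y, fun ⟨k, hk⟩ => ?_⟩
    rcases Finset.mem_insert.1 hk with rfl | hk'
    · exact h2
    · exact Set.mem_iInter.1 h1 ⟨k, hk'⟩
  choose next hnext using step
  let I : ℕ → Finset G := fun k =>
    (next^[k] ⟨∅, fun _ => ⟨x ⟨0, hn⟩, fun g => absurd g.2 (Finset.notMem_empty _)⟩⟩).1
  have hI : StrictMono I := strictMono_nat_of_lt_succ fun k => by
    simp only [I, Function.iterate_succ_apply']
    exact hnext _
  refine ⟨⋃ k, (I k : Set G), fun hfin => ?_, fun J hJ _ σ => ?_⟩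
  · have h1 : ∀ k, (I k).card ≤ hfin.toFinset.card := fun k => Finset.card_le_card fun g hg =>
      hfin.mem_toFinset.2 (Set.mem_iUnion.2 ⟨k, hg⟩)
    have h2 : StrictMono fun k => (I k).card := fun a b h => Finset.card_lt_card (hI h)
    exact ((h2.le_apply (x := hfin.toFinset.card + 1)).trans (h1 _)).not_gt (Nat.lt_succ_self _)
  · choose k hk using fun g : J => Set.mem_iUnion.1 (hJ g.2)
    have hsub : ∀ g : J, (g : G) ∈ I (Finset.univ.sup k) := fun g =>
      hI.monotone (Finset.le_sup (Finset.mem_univ g)) (hk g)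
    have hP : P (I (Finset.univ.sup k)) := Subtype.prop _
    obtain ⟨y, hy⟩ := hP fun g => if h : (g : G) ∈ J then σ ⟨g, h⟩ else ⟨0, hn⟩
    refine ⟨y, Set.mem_iInter.2 fun g => ⟨(g : G) • y, ?_, inv_smul_smul _ _⟩⟩
    have := hy ⟨g, hsub g⟩
    rw [dif_pos g.2] at this
    exact interior_subset this

/-- A minimal system is a point or infinite. -/
theorem Rich.subsingleton (hG : Rich G) [T2Space X] [Finite X] : Subsingleton X :=
  ⟨fun x y => by
    obtain ⟨g, -, h⟩ := hG.multi (κ := Bool) (fun _ => {x}) (fun b => {cond b x y})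
      (fun _ => isOpen_discrete _) (fun _ => isOpen_discrete _) (fun _ => Set.singleton_nonempty _)
      (fun _ => Set.singleton_nonempty _) ∅
    obtain ⟨_, rfl, h1⟩ := h true
    obtain ⟨_, rfl, h2⟩ := h false
    exact (h1.symm.trans h2 :)⟩

theorem Rich.subsingleton_of_tame (hG : Rich G) [T2Space X] {n : ℕ} (h : IsNTame G X n) :
    Subsingleton X := by
  rcases finite_or_infinite X with _ | _
  · exact hG.subsingleton
  · obtain ⟨i, j, h1, h2⟩ := h (fun i => Infinite.natEmbedding X i) (hG.isITTuple _)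
    exact absurd (Fin.ext ((Infinite.natEmbedding X).injective h2)) h1

end Pool.Agent.P.MP_6a4cde_an
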