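import Pool.Agent.P.MP_6a4cde_an.Defs

namespace Pool.Agent.P.MP_6a4cde_an

open Set Topology Filter

theorem exists_sparse (G : Type*) [Group G] [Countable G] [Infinite G] :
    ∃ J : Set G, J.Infinite ∧ (∀ h : G, h ≠ 1 → {a | a ∈ J ∧ a * h ∈ J}.Finite) ∧
      (∀ h : G, h ≠ 1 → {a | a ∈ J ∧ h * a ∈ J}.Finite) := by
  classical
  obtain ⟨e, he⟩ := exists_injective_nat G
  have hfin : ∀ n : ℕ, {x : G | e x ≤ n}.Finite := fun n =>
    (Set.finite_Iic n).preimage he.injOn
  obtain ⟨f, -, hf⟩ := exists_seq_of_forall_finset_exists (fun _ : G => True)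
    (fun x y : G => y ≠ x ∧ ∀ h, e h ≤ e x → y ≠ x * h ∧ y ≠ x * h⁻¹ ∧ y ≠ h * x ∧ y ≠ h⁻¹ * x)
    (by
      intro s _
      have hB : (⋃ x ∈ s, ({x} ∪ ⋃ h ∈ {h : G | e h ≤ e x},
          ({x * h, x * h⁻¹, h * x, h⁻¹ * x} : Set G))).Finite := by
        refine Set.Finite.biUnion s.finite_toSet fun x _ => (Set.finite_singleton x).union ?_
        exact Set.Finite.biUnion (hfin _) fun h _ => Set.toFinite _
      obtain ⟨y, hy⟩ := hB.infinite_compl.nonempty
      refine ⟨y, trivial, fun x hx => ?_⟩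
      simp only [mem_compl_iff, mem_iUnion, mem_union, mem_singleton_iff, mem_ofPred_eq,
        mem_insert_iff, not_exists, not_or] at hy
      exact ⟨(hy x hx).1, fun h hh => (hy x hx).2 h hh⟩)
  have hinj : Function.Injective f := by
    intro m n hmn
    rcases lt_trichotomy m n with h | h | h
    · exact absurd hmn.symm (hf m n h).1
    · exact h
    · exact absurd hmn (hf n m h).1
  refine ⟨Set.range f, Set.infinite_range_of_injective hinj, fun h hh => ?_, fun h hh => ?_⟩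
  · refine ((hfin (e h)).union ((hfin (e h)).image fun x => x * h⁻¹)).subset ?_
    rintro a ⟨⟨i, rfl⟩, ⟨j, hj⟩⟩
    rcases lt_trichotomy i j with hij | hij | hij
    · left
      by_contra hc
      exact ((hf i j hij).2 h (le_of_lt (not_le.mp hc))).1 hj
    · subst hij
      exact absurd (by simpa using hj.symm) hh
    · right
      refine ⟨f j, ?_, by simp [hj]⟩
      by_contra hc
      exact ((hf j i hij).2 h (le_of_lt (not_le.mp hc))).2.1 (by simp [hj])
  · refine ((hfin (e h)).union ((hfin (e h)).image fun x => h⁻¹ * x)).subset ?_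
    rintro a ⟨⟨i, rfl⟩, ⟨j, hj⟩⟩
    rcases lt_trichotomy i j with hij | hij | hij
    · left
      by_contra hc
      exact ((hf i j hij).2 h (le_of_lt (not_le.mp hc))).2.2.1 hj
    · subst hij
      exact absurd (by simpa using hj.symm) hh
    · right
      refine ⟨f j, ?_, by simp [hj]⟩
      by_contra hc
      exact ((hf j i hij).2 h (le_of_lt (not_le.mp hc))).2.2.2 (by simp [hj])

variable {G : Type*} [Group G]

/-- configurations supported on a left translate of `J` -/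
def Sp (J : Set G) (m : ℕ) : Set (G → Fin (m + 1)) :=
  {x | ∃ g : G, ∀ h, x h ≠ 0 → g⁻¹ * h ∈ J}

instance (J : Set G) (m : ℕ) : MulAction G (Sp J m) where
  smul g x := ⟨fun h => x.1 (g⁻¹ * h), by
    obtain ⟨k, hk⟩ := x.2
    exact ⟨g * k, fun h hh => by simpa [mul_assoc] using hk _ hh⟩⟩
  one_smul x := by
    apply Subtype.ext; funext h
    change x.1 (1⁻¹ * h) = x.1 h
    simp
  mul_smul g k x := by
    apply Subtype.ext; funext h
    change x.1 ((g * k)⁻¹ * h) = x.1 (k⁻¹ * (g⁻¹ * h))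
    simp [mul_assoc]

theorem smul_apply (J : Set G) (m : ℕ) (g : G) (x : Sp J m) (h : G) :
    (g • x).1 h = x.1 (g⁻¹ * h) := rfl

instance (J : Set G) (m : ℕ) : ContinuousConstSMul G (Sp J m) where
  continuous_const_smul g := by
    refine Continuous.subtype_mk (f := fun x : Sp J m => fun h => x.1 (g⁻¹ * h)) ?_ _
    exact continuous_pi fun h => (continuous_apply _).comp continuous_subtype_val

theorem isClosed_Sp {J : Set G} (hJ : J.Nonempty)
    (h1 : ∀ h : G, h ≠ 1 → {a | a ∈ J ∧ a * h ∈ J}.Finite) (m : ℕ) : IsClosed (Sp J m) := by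
  rw [← closure_subset_iff_isClosed]
  have hc : ∀ r : G, Continuous fun y : G → Fin (m + 1) => y r := fun r => continuous_apply r
  intro x hx
  by_cases hs : ∃ s t, s ≠ t ∧ x s ≠ 0 ∧ x t ≠ 0
  · obtain ⟨s, t, hst, hs, ht⟩ := hs
    have hT : {g : G | g⁻¹ * s ∈ J ∧ g⁻¹ * t ∈ J}.Finite := by
      have := h1 (s⁻¹ * t) (by simpa [inv_mul_eq_one] using hst)
      refine (this.image fun a => s * a⁻¹).subset ?_
      rintro g ⟨hg1, hg2⟩
      exact ⟨g⁻¹ * s, ⟨hg1, by simpa [mul_assoc] using hg2⟩, by simp⟩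
    have hcl : IsClosed (⋃ g ∈ {g : G | g⁻¹ * s ∈ J ∧ g⁻¹ * t ∈ J},
        {y : G → Fin (m + 1) | ∀ h, y h ≠ 0 → g⁻¹ * h ∈ J}) := by
      refine hT.isClosed_biUnion fun g _ => ?_
      rw [Set.ofPred_forall]
      refine isClosed_iInter fun h => ?_
      exact (isClosed_discrete {v : Fin (m + 1) | v ≠ 0 → g⁻¹ * h ∈ J}).preimage (hc h)
    have hO : IsOpen {y : G → Fin (m + 1) | y s ≠ 0 ∧ y t ≠ 0} :=
      ((isOpen_discrete {v : Fin (m + 1) | v ≠ 0}).preimage (hc s)).inter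
        ((isOpen_discrete {v : Fin (m + 1) | v ≠ 0}).preimage (hc t))
    have hx2 := hO.inter_closure ⟨⟨hs, ht⟩, hx⟩
    have hsub : {y : G → Fin (m + 1) | y s ≠ 0 ∧ y t ≠ 0} ∩ Sp J m ⊆
        ⋃ g ∈ {g : G | g⁻¹ * s ∈ J ∧ g⁻¹ * t ∈ J},
          {y : G → Fin (m + 1) | ∀ h, y h ≠ 0 → g⁻¹ * h ∈ J} := by
      rintro y ⟨⟨hys, hyt⟩, g, hg⟩
      exact Set.mem_biUnion (x := g) ⟨hg s hys, hg t hyt⟩ hg
    have := hcl.closure_subset_iff.mpr hsub hx2
    simp only [mem_iUnion] at this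
    obtain ⟨g, -, hg⟩ := this
    exact ⟨g, hg⟩
  · obtain ⟨a, ha⟩ := hJ
    by_cases h0 : ∃ s, x s ≠ 0
    · obtain ⟨s, hs0⟩ := h0
      refine ⟨s * a⁻¹, fun h hh => ?_⟩
      have : h = s := by
        by_contra hc
        exact hs ⟨h, s, hc, hh, hs0⟩
      simpa [this] using ha
    · exact ⟨1, fun h hh => absurd ⟨h, hh⟩ h0⟩

theorem tame_Sp {J : Set G} (hJ : J.Nonempty)
    (h1 : ∀ h : G, h ≠ 1 → {a | a ∈ J ∧ a * h ∈ J}.Finite)
    (h2 : ∀ h : G, h ≠ 1 → {a | a ∈ J ∧ h * a ∈ J}.Finite) (m : ℕ) :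
    IsNTame G (Sp J m) (m + 2) := by
  classical
  have : CompactSpace (Sp J m) := isCompact_iff_compactSpace.mp (isClosed_Sp hJ h1 m).isCompact
  intro x hx
  have key : ∀ i j s t, (x i).1 s ≠ 0 → (x j).1 t ≠ 0 → s = t := by
    intro i j s t hs ht
    by_contra hst
    let U : Fin (m + 2) → Set (Sp J m) := fun k => {y | y.1 s = (x k).1 s ∧ y.1 t = (x k).1 t}
    have hc : ∀ r : G, Continuous fun y : Sp J m => y.1 r := fun r =>
      (continuous_apply r).comp continuous_subtype_val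
    have hUo : ∀ k, IsOpen (U k) := fun k =>
      ((isOpen_discrete {(x k).1 s}).preimage (hc s)).inter
        ((isOpen_discrete {(x k).1 t}).preimage (hc t))
    have hUc : ∀ k, IsClosed (U k) := fun k =>
      ((isClosed_discrete {(x k).1 s}).preimage (hc s)).inter
        ((isClosed_discrete {(x k).1 t}).preimage (hc t))
    obtain ⟨K, hK, hind⟩ := hx U fun k => (hUo k).mem_nhds ⟨rfl, rfl⟩
    have hall : ∀ σ : G → Fin (m + 2), ∃ y : Sp J m, ∀ g ∈ K, g • y ∈ U (σ g) := by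
      intro σ
      have := isCompact_univ.inter_iInter_nonempty
        (fun g : K => (fun y : Sp J m => (g : G) • y) ⁻¹' U (σ g))
        (fun g => (hUc _).preimage (continuous_const_smul _)) (by
          intro u
          rcases u.eq_empty_or_nonempty with rfl | hu
          · exact ⟨x i, by simp⟩
          obtain ⟨y, hy⟩ := hind (u.map (Function.Embedding.subtype _))
            (by intro g hg; simp at hg; exact hg.1) (by simpa using hu) fun g => σ g
          refine ⟨y, mem_univ _, ?_⟩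
          simp only [mem_iInter] at hy ⊢
          intro g hg
          obtain ⟨z, hz, rfl⟩ := hy ⟨g, by simp [hg]⟩
          simpa using hz)
      obtain ⟨y, -, hy⟩ := this
      simp only [mem_iInter] at hy
      exact ⟨y, fun g hg => hy ⟨g, hg⟩⟩
    obtain ⟨y, hy⟩ := hall fun _ => i
    obtain ⟨h, hh⟩ := y.2
    have hs1 : ∀ g ∈ K, h⁻¹ * (g⁻¹ * s) ∈ J := fun g hg =>
      hh _ (by rw [← smul_apply, (hy g hg).1]; exact hs)
    have ht1 : ∀ g ∈ K, h⁻¹ * (g⁻¹ * t) ∈ J := by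
      intro g hg
      obtain ⟨z, hz⟩ := hall fun k => if k = g then j else i
      obtain ⟨h', hh'⟩ := z.2
      have e1 : h'⁻¹ * (g⁻¹ * t) ∈ J := hh' _ (by
        have := (hz g hg).2
        simp only [if_true] at this
        rw [← smul_apply, this]; exact ht)
      have e2 : ∀ k ∈ K, k ≠ g → h'⁻¹ * (k⁻¹ * s) ∈ J := fun k hk hkg => hh' _ (by
        have := (hz k hk).1
        simp only [hkg, if_false] at this
        rw [← smul_apply, this]; exact hs)
      have : h'⁻¹ * h = 1 := by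
        by_contra hne
        have hfin := h2 _ hne
        apply (hK.sdiff (Set.finite_singleton g))
        refine (hfin.image fun a => s * a⁻¹ * h⁻¹).subset ?_
        rintro k ⟨hk, hkg⟩
        exact ⟨h⁻¹ * (k⁻¹ * s), ⟨hs1 k hk, by simpa [mul_assoc] using e2 k hk hkg⟩, by group⟩
      rw [inv_mul_eq_one] at this
      rw [← this]; exact e1
    have hfin := h1 (s⁻¹ * t) (by simpa [inv_mul_eq_one] using hst)
    apply hK
    refine (hfin.image fun a => s * a⁻¹ * h⁻¹).subset ?_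
    intro k hk
    exact ⟨h⁻¹ * (k⁻¹ * s), ⟨hs1 k hk, by simpa [mul_assoc] using ht1 k hk⟩, by group⟩
  have hex : ∃ s : G, ∀ i t, t ≠ s → (x i).1 t = 0 := by
    by_cases h0 : ∃ i s, (x i).1 s ≠ 0
    · obtain ⟨i, s, hs⟩ := h0
      refine ⟨s, fun j t hts => ?_⟩
      by_contra hc
      exact hts (key j i t s hc hs)
    · push Not at h0
      exact ⟨1, fun i t _ => h0 i t⟩
  obtain ⟨s, hs⟩ := hex
  obtain ⟨i, j, hij, he⟩ := Fintype.exists_ne_map_eq_of_card_lt (fun i => (x i).1 s) (by simp)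
  refine ⟨i, j, hij, Subtype.ext (funext fun t => ?_)⟩
  by_cases hts : t = s
  · rw [hts]; exact he
  · rw [hs i t hts, hs j t hts]

theorem untame_Sp {J : Set G} (hJ : J.Infinite)
    (h1 : ∀ h : G, h ≠ 1 → {a | a ∈ J ∧ a * h ∈ J}.Finite) (m : ℕ) :
    ¬ IsNTame G (Sp J m) (m + 1) := by
  classical
  obtain ⟨a0, ha0⟩ := hJ.nonempty
  let x : Fin (m + 1) → Sp J m := fun i => ⟨Pi.single 1 i, a0⁻¹, fun h hh => by
    have : h = 1 := by
      by_contra hc
      exact hh (Pi.single_eq_of_ne hc _)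
    simpa [this] using ha0⟩
  intro hT
  have hIT : IsITTuple G x := by
    intro U hU
    have hF : ∀ i, ∃ F : Set G, F.Finite ∧ ∀ y : Sp J m, (∀ f ∈ F, y.1 f = (x i).1 f) → y ∈ U i := by
      intro i
      obtain ⟨V, hV, hVU⟩ := (mem_nhds_subtype _ _ _).mp (hU i)
      rw [nhds_pi, Filter.mem_pi] at hV
      obtain ⟨F, hF, t, ht, hFt⟩ := hV
      refine ⟨F, hF, fun y hy => hVU (hFt fun f hf => ?_)⟩
      rw [hy f hf]
      exact mem_of_mem_nhds (ht f)
    choose F hFfin hFU using hF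
    have hbad : (⋃ i, ⋃ f ∈ F i \ {1}, {a | a ∈ J ∧ a * f ∈ J}).Finite :=
      Set.finite_iUnion fun i => (hFfin i).sdiff.biUnion fun f hf => h1 f hf.2
    refine ⟨(J \ ⋃ i, ⋃ f ∈ F i \ {1}, {a | a ∈ J ∧ a * f ∈ J})⁻¹, fun hc => hJ.sdiff hbad (Set.finite_inv.mp hc), ?_⟩
    intro I hI _ σ
    let y : Sp J m := ⟨fun h => if hh : h⁻¹ ∈ I then σ ⟨h⁻¹, hh⟩ else 0, 1, fun h hh => by
      have : h⁻¹ ∈ I := by
        by_contra hc
        exact hh (dif_neg hc)
      simpa using (hI this).1⟩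
    refine ⟨y, ?_⟩
    simp only [mem_iInter]
    intro g
    refine ⟨(g : G) • y, hFU _ _ fun f hf => ?_, by simp⟩
    rw [smul_apply]
    by_cases hf1 : f = 1
    · subst hf1
      simp [y, x]
    · have hg := hI g.2
      have hn : (g : G)⁻¹ * f ∉ J := by
        intro hc
        apply hg.2
        simp only [mem_iUnion]
        exact ⟨σ g, f, ⟨hf, hf1⟩, hg.1, hc⟩
      have hn2 : ((g : G)⁻¹ * f)⁻¹ ∉ I := fun hc => hn (by simpa using (hI hc).1)
      change (if hh : ((g : G)⁻¹ * f)⁻¹ ∈ I then σ ⟨_, hh⟩ else 0) = Pi.single (M := fun _ => Fin (m + 1)) (1 : G) (σ g) f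
      rw [dif_neg hn2, Pi.single_eq_of_ne hf1]
  obtain ⟨i, j, hij, he⟩ := hT x hIT
  apply hij
  have := congrFun (congrArg Subtype.val he) 1
  simpa [x] using this

universe u

theorem main (G : Type u) [Group G] [Countable G] [Infinite G] (m : ℕ) (hm : 1 ≤ m) :
    ∃ (X : Type u) (_ : MetricSpace X) (_ : CompactSpace X) (_ : MulAction G X)
      (_ : ContinuousConstSMul G X), IsNTame G X (m + 1) ∧ ¬ IsNTame G X m := by
  obtain ⟨J, hJ, h1, h2⟩ := exists_sparse G
  obtain ⟨k, rfl⟩ : ∃ k, m = k + 1 := ⟨m - 1, by omega⟩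
  have : CompactSpace (Sp J k) :=
    isCompact_iff_compactSpace.mp (isClosed_Sp hJ.nonempty h1 k).isCompact
  exact ⟨Sp J k, TopologicalSpace.metrizableSpaceMetric _, this, inferInstance,
    (inferInstance : ContinuousConstSMul G (Sp J k)), tame_Sp hJ.nonempty h1 h2 k, untame_Sp hJ h1 k⟩

end Pool.Agent.P.MP_6a4cde_an
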